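import Pool.Agent.N982.EM.Dich

/-!
A characterisation of the singular points of a suitable weak periodic solution of the Navier-Stokes
equations by the net influx of energy: a point is singular if and only if, on a fixed proportion of
the scales, there is net influx of energy through every system of closed (moving) surfaces around
the point, at least `ε` times the energy in the ball. Otherwise this happens at finitely many scales
only. For spheres whose centre may move (`Pool.Agent.N982.EM.sphere`, `κ = 2`, `μ = 1/2`) the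
proportion is `2/3 - δ` for every `δ > 0`.

The surfaces are the level surfaces `{ψ(t, ·) = s}`, `s < μ r² / 64`, of any smooth `ψ` with
`|∇ψ|² ≤ 4 ψ` and `Δψ ≥ 2 (1 + κ)`, `κ > 0`, around `x₀` at the scale `r`; the flux of energy
outwards through the moving surfaces has the density `|u|² (∂ₜψ + u · ∇ψ) + 2 p u · ∇ψ`.

`V = Fin 3 → ℝ` with the maximum norm. See the claim file for the definitions.
-/

open MeasureTheory Set

namespace Pool.Agent.Results.MP_6bf1e5_an.NetEnergyInflux

open H459R3.NS W221.NS Pool.Agent.Y8 Pool.Agent.N982.MC Pool.Agent.N982.EM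

open Classical in
/-- Let `0 < κ ≤ 2`, `0 < μ ≤ 1` and `q > 1 / (1 + κ)`. There are `c ∈ (0, 1)`, `ε > 0` and a profile
`η`, and for all `ν, E, D, r₀` there is `N`, such that for every suitable weak periodic solution
`(u, p)` with viscosity `ν` and bounds `E, D` and every point `(t₀, x₀)` (`t₀ ≤ T` is allowed): if
the point is singular, then for every `n ≥ N` more than `(1 - q) n` of the scales `c ^ k r₀`,
`k < n`, have influx; if it is not singular, then only finitely many scales have influx. -/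
theorem result (κ μ q : ℝ) (hκ : 0 < κ) (hκ2 : κ ≤ 2) (hμ : 0 < μ) (hμ1 : μ ≤ 1)
    (hq : 1 < q * (1 + κ)) :
    ∃ (c ε : ℝ) (η : ℝ → ℝ → ℝ), 0 < c ∧ c < 1 ∧ 0 < ε ∧ Profile (μ / 64) η ∧
      ∀ ν E D r₀ : ℝ, 0 < ν → 0 < r₀ → r₀ ≤ 1 → ∃ N : ℕ,
      ∀ (T : ℝ) (G : Set ℝ) (u : ℝ → V → V) (p : ℝ → V → ℝ), Turb ν T E D G u p →
        ∀ (t₀ : ℝ) (x₀ : V), t₀ ≤ T → r₀ ^ 2 ≤ ν * t₀ →
          (SingPt G u t₀ x₀ → ∀ n : ℕ, N ≤ n →
            (1 - q) * n < Nat.count (fun k => Influx ν κ μ c ε η G t₀ x₀ u p (c ^ k * r₀)) n) ∧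
          (¬ SingPt G u t₀ x₀ →
            ∃ M : ℕ, ∀ k : ℕ, M ≤ k → ¬ Influx ν κ μ c ε η G t₀ x₀ u p (c ^ k * r₀)) :=
  dich hκ hκ2 hμ hμ1 hq

end Pool.Agent.Results.MP_6bf1e5_an.NetEnergyInflux
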